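import Pool.Agent.EulFlag.Check

set_option autoImplicit false

open Finset

namespace Pool.EulFlag

theorem qf_cmp (q r : Quad) (i : Fin 4) : qf (cmp q r) i = qf q (qf r i) := by
  fin_cases i <;> rfl

theorem pq_pq (P : Fin 4 → Fin 4 → Fin 3) (q r : Quad) : pq (pq P q) r = pq P (cmp q r) := by
  funext i j
  simp only [pq, qf_cmp]

theorem symsum_pq (C : Cert) (P : Fin 4 → Fin 4 → Fin 3) (q : Quad) (hq : q ∈ perms) :
    symsum C (pq P q) = symsum C P := by
  have h := perms_cmp q hq
  have h2 := (h.map (fun r => PsiP C (pq P r))).sum_eq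
  unfold symsum
  rw [← h2, List.map_map]
  exact congrArg List.sum (List.map_congr_left (fun r _ => by simp only [Function.comp, pq_pq]))

/-- Antisymmetry of a pattern. -/
def anti (P : Fin 4 → Fin 4 → Fin 3) : Prop := ∀ i j, P j i = rv (P i j)

theorem rv_rv (x : Fin 3) : rv (rv x) = x := by revert x; decide

theorem anti_mk (a b c d e f : Fin 3) : anti (mk a b c d e f) := by
  intro i j
  fin_cases i <;> fin_cases j <;> first | rfl | exact (rv_rv _).symm

theorem anti_pq (P : Fin 4 → Fin 4 → Fin 3) (hP : anti P) (q : Quad) : anti (pq P q) :=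
  fun _ _ => hP _ _

theorem eq_of_patEq (P Q : Fin 4 → Fin 4 → Fin 3) (hP : anti P) (hQ : anti Q)
    (h : patEq P Q = true) : P = Q := by
  simp only [patEq, Bool.and_eq_true, beq_iff_eq] at h
  obtain ⟨⟨⟨⟨⟨h01, h02⟩, h03⟩, h12⟩, h13⟩, h23⟩ := h
  have hP0 : ∀ i, P i i = 0 := fun i => rv_eq_self (hP i i)
  have hQ0 : ∀ i, Q i i = 0 := fun i => rv_eq_self (hQ i i)
  have hr : ∀ i j, P i j = Q i j → P j i = Q j i := by
    intro i j h
    rw [hP i j, h, ← hQ i j]
  funext i j
  fin_cases i <;> fin_cases j
  · exact (hP0 _).trans (hQ0 _).symm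
  · exact h01
  · exact h02
  · exact h03
  · exact hr _ _ h01
  · exact (hP0 _).trans (hQ0 _).symm
  · exact h12
  · exact h13
  · exact hr _ _ h02
  · exact hr _ _ h12
  · exact (hP0 _).trans (hQ0 _).symm
  · exact h23
  · exact hr _ _ h03
  · exact hr _ _ h13
  · exact hr _ _ h23
  · exact (hP0 _).trans (hQ0 _).symm

theorem getD_mem {α : Type} (l : List α) (n : ℕ) (d : α) (hd : d ∈ l) : l.getD n d ∈ l := by
  rcases lt_or_ge n l.length with h | h
  · rw [List.getD_eq_getElem _ _ h]; exact List.getElem_mem h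
  · rw [List.getD_eq_default _ _ h]; exact hd

theorem lookR_mem (k : ℕ) : lookR k ∈ reps := getD_mem _ _ _ (by decide +kernel)

theorem lookQ_mem (k : ℕ) : lookQ k ∈ perms := getD_mem _ _ _ (by decide +kernel)

/-- Every directed-triangle-free pattern is a renaming of a representative. -/
theorem cover (a b c d e f : Fin 3) (h : c3ok (mk a b c d e f) = true) :
    ∃ r ∈ reps, ∃ q ∈ perms, mk a b c d e f = pq (mkt r) q := by
  have h1 := cov_all a b c d e f
  simp only [cov1, h, Bool.not_true, Bool.false_or] at h1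
  refine ⟨lookR (ixp a b c d e f), lookR_mem _, lookQ (ixp a b c d e f), lookQ_mem _, ?_⟩
  exact (eq_of_patEq _ _ (anti_pq _ (anti_mk _ _ _ _ _ _) _) (anti_mk _ _ _ _ _ _) h1).symm

/-- The state function of an arc relation. -/
def stt {V : Type} (e : V → V → Bool) (x y : V) : Fin 3 :=
  if e x y then 1 else if e y x then 2 else 0

theorem stt_rv {V : Type} (e : V → V → Bool) (hd : ∀ x y, e x y = true → e y x = false)
    (x y : V) : stt e y x = rv (stt e x y) := by
  unfold stt
  cases h1 : e x y <;> cases h2 : e y x <;> simp [rv]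
  have := hd x y h1
  rw [h2] at this; exact absurd this (by simp)

theorem stt_one {V : Type} (e : V → V → Bool) (x y : V) : stt e x y = 1 ↔ e x y = true := by
  unfold stt
  cases h1 : e x y <;> cases h2 : e y x <;> simp

theorem c3ok_pat {V : Type} (e : V → V → Bool) (hd : ∀ x y, e x y = true → e y x = false)
    (h3 : ∀ x y z, e x y = true → e y z = true → e z x = true → False) (v : Fin 4 → V) :
    c3ok (pat (stt e) v) = true := by
  have key : ∀ i j k : Fin 4, (!((pat (stt e) v i j == 1 && pat (stt e) v j k == 1 &&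
      pat (stt e) v k i == 1) || (pat (stt e) v i j == 2 && pat (stt e) v j k == 2 &&
      pat (stt e) v k i == 2))) = true := by
    intro i j k
    have r1 : ∀ a b, stt e a b = 2 → e b a = true := by
      intro a b h
      have := stt_rv e hd a b
      rw [h] at this
      exact (stt_one e b a).1 this
    simp only [Bool.not_eq_true', Bool.or_eq_false_iff, Bool.and_eq_false_iff, beq_eq_false_iff_ne,
      pat]
    constructor
    · by_contra hc
      push Not at hc
      obtain ⟨⟨a, b⟩, c⟩ := hc
      exact h3 _ _ _ ((stt_one e _ _).1 a) ((stt_one e _ _).1 b) ((stt_one e _ _).1 c)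
    · by_contra hc
      push Not at hc
      obtain ⟨⟨a, b⟩, c⟩ := hc
      exact h3 _ _ _ (r1 _ _ c) (r1 _ _ b) (r1 _ _ a)
  simp only [c3ok, key, Bool.and_true]

/-- The rows of the pattern are distinct. -/
def good (H : Six) : Bool :=
  decide (∀ i j : Fin 4, i ≠ j → ∃ k, mkt H i k ≠ mkt H j k)

theorem copy_of_pq {V : Type} (s : V → V → Fin 3) (H : Six) (hH : good H = true) (v : Fin 4 → V)
    (q : Quad) (hq : q ∈ perms) (h : pat s v = pq (mkt H) q) :
    ∃ f : Fin 4 → V, Function.Injective f ∧ ∀ i j, s (f i) (f j) = mkt H i j := by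
  simp only [good, decide_eq_true_eq] at hH
  let e : Fin 4 ≃ Fin 4 := Equiv.ofBijective _ (perms_bij q hq)
  have he : ∀ i, qf q (e.symm i) = i := fun i => e.apply_symm_apply i
  have heq : ∀ i j, s (v (e.symm i)) (v (e.symm j)) = mkt H i j := by
    intro i j
    have h1 := congrFun (congrFun h (e.symm i)) (e.symm j)
    simp only [pat, pq, he] at h1
    exact h1
  refine ⟨fun i => v (e.symm i), ?_, heq⟩
  intro i j hij
  by_contra hne
  obtain ⟨k, hk⟩ := hH i j hne
  apply hk
  rw [← heq i k, ← heq j k]
  simp only at hij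
  rw [hij]

/-- A certificate gives a bound for the number of arcs. -/
theorem cert_apply {V : Type} [Fintype V] [DecidableEq V]
    (C : Cert) (hC : C.valid = true) (forb : List Six)
    (hchk : chk C forb) (e : V → V → Bool) (hd : ∀ x y, e x y = true → e y x = false)
    (h3 : ∀ x y z, e x y = true → e y z = true → e z x = true → False)
    (heul : ∀ x, ((univ.filter fun y => e x y = true).card : ℤ)
      = ((univ.filter fun y => e y x = true).card : ℤ))
    (hforb : ∀ H ∈ forb, good H = true ∧ ¬ ∃ f : Fin 4 → V, Function.Injective f ∧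
      ∀ i j, stt e (f i) (f j) = mkt H i j) :
    C.cd * (∑ x, ((univ.filter fun y => e x y = true).card : ℤ))
      ≤ C.cn * (Fintype.card V : ℤ) ^ 2 := by
  have hs := stt_rv e hd
  have h1 : ∀ x, ∑ y, dl (stt e x y) = 0 := by
    intro x
    have h2 : ∀ y, dl (stt e x y) = (if e x y = true then (1 : ℤ) else 0)
        - (if e y x = true then (1 : ℤ) else 0) := by
      intro y
      unfold stt
      have := hd x y
      cases h1 : e x y
      · cases h2 : e y x
        · rfl
        · rfl
      · have h3 := this h1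
        rw [h3]; rfl
    simp only [h2, Finset.sum_sub_distrib, Finset.sum_boole]
    rw [heul x, sub_self]
  have h2 := main_bound (stt e) hs h1 C hC ?_
  · have h3 : ∀ x, (∑ y, if stt e x y = 1 then (1 : ℤ) else 0)
        = ((univ.filter fun y => e x y = true).card : ℤ) := by
      intro x
      simp only [stt_one, Finset.sum_boole]
    simpa only [h3] using h2
  · intro v
    have h5 := c3ok_pat e hd h3 v
    have h6 := pat_eq_mk (stt e) hs v
    obtain ⟨r, hr, q, hq, h7⟩ := cover _ _ _ _ _ _ (h6 ▸ h5)
    rw [← h6] at h7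
    rw [h7, symsum_pq C _ q hq]
    have h9 := List.all_eq_true.1 hchk r hr
    rw [Bool.or_eq_true, decide_eq_true_eq] at h9
    rcases h9 with h8 | h8
    · exfalso
      obtain ⟨hg, hno⟩ := hforb r (List.contains_iff_mem.1 h8)
      exact hno (copy_of_pq (stt e) r hg v q hq h7)
    · exact h8

end Pool.EulFlag
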