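import Mathlib

/-!
# Certificates for Eulerian oriented graphs (sums over 4-tuples)

`s x y : Fin 3` is the state of the ordered pair `(x, y)`: `0` no arc, `1` arc `x → y`,
`2` arc `y → x`.  `rv` reverses a state.
-/

set_option autoImplicit false

open Finset

namespace Pool.EulFlag

/-- Reversal of a state. -/
def rv : Fin 3 → Fin 3
  | 0 => 0
  | 1 => 2
  | 2 => 1

/-- `+1` for an out-arc, `-1` for an in-arc. -/
def dl : Fin 3 → ℤ
  | 0 => 0
  | 1 => 1
  | 2 => -1

/-- The full pattern on four vertices with given six states. -/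
def mk (a b c d e f : Fin 3) : Fin 4 → Fin 4 → Fin 3
  | 0, 0 => 0 | 0, 1 => a | 0, 2 => b | 0, 3 => c
  | 1, 0 => rv a | 1, 1 => 0 | 1, 2 => d | 1, 3 => e
  | 2, 0 => rv b | 2, 1 => rv d | 2, 2 => 0 | 2, 3 => f
  | 3, 0 => rv c | 3, 1 => rv e | 3, 2 => rv f | 3, 3 => 0

/-- A certificate. -/
structure Cert where
  K : ℤ
  cn : ℤ
  cd : ℤ
  A : List (List ℤ)
  B : List (List ℤ)
  QA : List (List ℤ)
  QB : List (List ℤ)
  Y : List ℤ

/-- Entry of a table. -/
def ent (Q : List (List ℤ)) (f g : ℕ) : ℤ := (Q.getD f []).getD g 0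

/-- Gram entry. -/
def gram (L : List (List ℤ)) (f g : ℕ) : ℤ := (L.map (fun l => l.getD f 0 * l.getD g 0)).sum

/-- Index of a flag. -/
def ix (x y : Fin 3) : ℕ := 3 * x.val + y.val

/-- Index of a rooted flag on three vertices. -/
def iy (x y z : Fin 3) : ℕ := 9 * x.val + 3 * y.val + z.val

/-- The tables are Gram matrices and `K > 0`. -/
def Cert.valid (C : Cert) : Bool :=
  decide (0 < C.K) &&
  ((List.range 9).all fun f => (List.range 9).all fun g =>
    (ent C.QA f g == gram C.A f g) && (ent C.QB f g == gram C.B f g))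

/-- The local functional. -/
def Psi (C : Cert) (a b c d e f : Fin 3) : ℤ :=
  C.K * (C.cn - (if a = 1 then C.cd else 0))
  - (if a = 1 then ent C.QA (ix b d) (ix c e) else 0)
  - (if a = 0 then ent C.QB (ix b d) (ix c e) else 0)
  - dl c * C.Y.getD (iy a b d) 0

/-- `Psi` of a pattern. -/
def PsiP (C : Cert) (P : Fin 4 → Fin 4 → Fin 3) : ℤ :=
  Psi C (P 0 1) (P 0 2) (P 0 3) (P 1 2) (P 1 3) (P 2 3)

/-- A quadruple of indices. -/
abbrev Quad := Fin 4 × Fin 4 × Fin 4 × Fin 4

/-- The map of a quadruple. -/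
def qf (q : Quad) : Fin 4 → Fin 4
  | 0 => q.1
  | 1 => q.2.1
  | 2 => q.2.2.1
  | 3 => q.2.2.2

/-- The list of all permutations of four elements. -/
def perms : List Quad :=
  [(0,1,2,3),(0,1,3,2),(0,2,1,3),(0,2,3,1),(0,3,1,2),(0,3,2,1),
   (1,0,2,3),(1,0,3,2),(1,2,0,3),(1,2,3,0),(1,3,0,2),(1,3,2,0),
   (2,0,1,3),(2,0,3,1),(2,1,0,3),(2,1,3,0),(2,3,0,1),(2,3,1,0),
   (3,0,1,2),(3,0,2,1),(3,1,0,2),(3,1,2,0),(3,2,0,1),(3,2,1,0)]

theorem perms_bij : ∀ q ∈ perms, Function.Bijective (qf q) := by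
  decide +kernel

/-- Permuted pattern. -/
def pq (P : Fin 4 → Fin 4 → Fin 3) (q : Quad) : Fin 4 → Fin 4 → Fin 3 :=
  fun i j => P (qf q i) (qf q j)

/-- Symmetrised functional. -/
def symsum (C : Cert) (P : Fin 4 → Fin 4 → Fin 3) : ℤ :=
  (perms.map (fun q => PsiP C (pq P q))).sum

section Sum

set_option linter.unusedSectionVars false
set_option linter.unusedVariables false

variable {V : Type} [Fintype V] [DecidableEq V]

/-- Pattern of a tuple. -/
def pat (s : V → V → Fin 3) (v : Fin 4 → V) : Fin 4 → Fin 4 → Fin 3 := fun i j => s (v i) (v j)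

theorem rv_eq_self {x : Fin 3} (h : x = rv x) : x = 0 := by
  revert h; revert x; decide

theorem pat_eq_mk (s : V → V → Fin 3) (hs : ∀ x y, s y x = rv (s x y)) (v : Fin 4 → V) :
    pat s v = mk (s (v 0) (v 1)) (s (v 0) (v 2)) (s (v 0) (v 3)) (s (v 1) (v 2)) (s (v 1) (v 3))
      (s (v 2) (v 3)) := by
  have h0 : ∀ x, s x x = 0 := fun x => rv_eq_self (hs x x)
  funext i j
  fin_cases i <;> fin_cases j <;> simp [pat, mk, h0] <;> exact hs _ _

theorem sum_perm (F : (Fin 4 → V) → ℤ) (q : Quad) (hq : Function.Bijective (qf q)) :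
    ∑ v : Fin 4 → V, F (fun i => v (qf q i)) = ∑ v : Fin 4 → V, F v := by
  classical
  let e : Fin 4 ≃ Fin 4 := Equiv.ofBijective _ hq
  refine Fintype.sum_equiv (Equiv.arrowCongr e.symm (Equiv.refl V)) _ _ ?_
  intro v
  congr 1

theorem sum_symm (s : V → V → Fin 3) (C : Cert)
    (hpos : ∀ v : Fin 4 → V, 0 ≤ symsum C (pat s v)) :
    0 ≤ ∑ v : Fin 4 → V, PsiP C (pat s v) := by
  have h1 : ∑ v : Fin 4 → V, symsum C (pat s v) = 24 * ∑ v : Fin 4 → V, PsiP C (pat s v) := by
    have h2 : ∀ L : List Quad, (∀ q ∈ L, Function.Bijective (qf q)) →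
        ∑ v : Fin 4 → V, (L.map (fun q => PsiP C (pq (pat s v) q))).sum
          = L.length * ∑ v : Fin 4 → V, PsiP C (pat s v) := by
      intro L
      induction L with
      | nil => intro _; simp
      | cons q L ih =>
        intro hL
        have h3 := ih (fun r hr => hL r (List.mem_cons_of_mem _ hr))
        have h4 := sum_perm (fun v => PsiP C (pat s v)) q (hL q List.mem_cons_self)
        simp only [List.map_cons, List.sum_cons, Finset.sum_add_distrib, h3, List.length_cons]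
        have h5 : ∑ v : Fin 4 → V, PsiP C (pq (pat s v) q) = ∑ v : Fin 4 → V, PsiP C (pat s v) := h4
        rw [h5]
        push_cast
        ring
    have := h2 perms perms_bij
    simpa [symsum, perms] using this
  have h6 : 0 ≤ ∑ v : Fin 4 → V, symsum C (pat s v) := Finset.sum_nonneg (fun v _ => hpos v)
  omega

/-- Tuples as an iterated product. -/
def tupEquiv : (Fin 4 → V) ≃ V × V × V × V where
  toFun v := (v 0, v 1, v 2, v 3)
  invFun p := fun i => match i with
    | 0 => p.1 | 1 => p.2.1 | 2 => p.2.2.1 | 3 => p.2.2.2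
  left_inv v := by funext i; fin_cases i <;> rfl
  right_inv p := rfl

theorem sum_tup (F : V → V → V → V → ℤ) :
    ∑ v : Fin 4 → V, F (v 0) (v 1) (v 2) (v 3) = ∑ x, ∑ y, ∑ z, ∑ w, F x y z w := by
  have h := Fintype.sum_equiv (tupEquiv (V := V)) (fun v => F (v 0) (v 1) (v 2) (v 3))
    (fun p => F p.1 p.2.1 p.2.2.1 p.2.2.2) (fun v => rfl)
  rw [h]
  simp only [Fintype.sum_prod_type]

theorem gram_sum (L : List (List ℤ)) (φ : V → ℕ) :
    0 ≤ ∑ z, ∑ w, gram L (φ z) (φ w) := by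
  induction L with
  | nil => simp [gram]
  | cons l L ih =>
    have h : ∀ z w, gram (l :: L) (φ z) (φ w)
        = l.getD (φ z) 0 * l.getD (φ w) 0 + gram L (φ z) (φ w) := by
      intro z w; simp [gram]
    simp only [h, Finset.sum_add_distrib]
    have h2 : ∑ z, ∑ w, l.getD (φ z) 0 * l.getD (φ w) 0
        = (∑ z, l.getD (φ z) 0) * (∑ w, l.getD (φ w) 0) := by
      rw [Finset.sum_mul_sum]
    rw [h2]
    have := mul_self_nonneg (∑ z, l.getD (φ z) 0)
    omega

theorem ix_lt (x y : Fin 3) : ix x y < 9 := by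
  unfold ix; omega

theorem main_bound (s : V → V → Fin 3) (hs : ∀ x y, s y x = rv (s x y))
    (heul : ∀ x, ∑ y, dl (s x y) = 0) (C : Cert) (hC : C.valid = true)
    (hpos : ∀ v : Fin 4 → V, 0 ≤ symsum C (pat s v)) :
    C.cd * (∑ x, ∑ y, if s x y = 1 then (1 : ℤ) else 0) ≤ C.cn * (Fintype.card V : ℤ) ^ 2 := by
  classical
  have hT := sum_symm s C hpos
  have hval : 0 < C.K ∧ ∀ f < 9, ∀ g < 9, ent C.QA f g = gram C.A f g ∧
      ent C.QB f g = gram C.B f g := by
    simp only [Cert.valid, Bool.and_eq_true, decide_eq_true_eq, List.all_eq_true, List.mem_range,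
      beq_iff_eq] at hC
    exact hC
  obtain ⟨hK, hQ⟩ := hval
  set n : ℤ := (Fintype.card V : ℤ) with hn
  set m : ℤ := ∑ x, ∑ y, (if s x y = 1 then (1 : ℤ) else 0) with hm
  have e1 : ∑ v : Fin 4 → V, PsiP C (pat s v)
      = ∑ x, ∑ y, ∑ z, ∑ w, Psi C (s x y) (s x z) (s x w) (s y z) (s y w) (s z w) :=
    sum_tup (fun x y z w => Psi C (s x y) (s x z) (s x w) (s y z) (s y w) (s z w))
  rw [e1] at hT
  have e2 : ∑ x, ∑ y, ∑ z, ∑ w, Psi C (s x y) (s x z) (s x w) (s y z) (s y w) (s z w)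
      = (∑ x : V, ∑ y : V, ∑ _z : V, ∑ _w : V,
          C.K * (C.cn - (if s x y = 1 then C.cd else 0)))
        - (∑ x : V, ∑ y : V, ∑ z : V, ∑ w : V,
          (if s x y = 1 then gram C.A (ix (s x z) (s y z)) (ix (s x w) (s y w)) else 0))
        - (∑ x : V, ∑ y : V, ∑ z : V, ∑ w : V,
          (if s x y = 0 then gram C.B (ix (s x z) (s y z)) (ix (s x w) (s y w)) else 0))
        - (∑ x : V, ∑ y : V, ∑ z : V, ∑ w : V,
          dl (s x w) * C.Y.getD (iy (s x y) (s x z) (s y z)) 0) := by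
    simp only [← Finset.sum_sub_distrib]
    refine Finset.sum_congr rfl fun x _ => Finset.sum_congr rfl fun y _ =>
      Finset.sum_congr rfl fun z _ => Finset.sum_congr rfl fun w _ => ?_
    unfold Psi
    rw [(hQ _ (ix_lt (s x z) (s y z)) _ (ix_lt (s x w) (s y w))).1,
      (hQ _ (ix_lt (s x z) (s y z)) _ (ix_lt (s x w) (s y w))).2]
  rw [e2] at hT
  have p1 : (∑ x : V, ∑ y : V, ∑ _z : V, ∑ _w : V,
      C.K * (C.cn - (if s x y = 1 then C.cd else 0)))
      = C.K * n ^ 2 * (C.cn * n ^ 2 - C.cd * m) := by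
    have h1 : ∀ x y : V, (∑ _z : V, ∑ _w : V, C.K * (C.cn - (if s x y = 1 then C.cd else 0)))
        = C.K * n ^ 2 * (C.cn - C.cd * (if s x y = 1 then (1 : ℤ) else 0)) := by
      intro x y
      simp only [Finset.sum_const, Finset.card_univ, nsmul_eq_mul, ← hn]
      split_ifs <;> ring
    simp only [h1]
    simp only [← Finset.mul_sum, Finset.sum_sub_distrib, Finset.sum_const, Finset.card_univ,
      nsmul_eq_mul, ← hn, ← hm]
    ring
  have p2 : 0 ≤ (∑ x : V, ∑ y : V, ∑ z : V, ∑ w : V,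
      (if s x y = 1 then gram C.A (ix (s x z) (s y z)) (ix (s x w) (s y w)) else 0)) := by
    refine Finset.sum_nonneg fun x _ => Finset.sum_nonneg fun y _ => ?_
    by_cases h : s x y = 1
    · simp only [h, if_true]
      exact gram_sum C.A (fun z => ix (s x z) (s y z))
    · simp [h]
  have p3 : 0 ≤ (∑ x : V, ∑ y : V, ∑ z : V, ∑ w : V,
      (if s x y = 0 then gram C.B (ix (s x z) (s y z)) (ix (s x w) (s y w)) else 0)) := by
    refine Finset.sum_nonneg fun x _ => Finset.sum_nonneg fun y _ => ?_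
    by_cases h : s x y = 0
    · simp only [h, if_true]
      exact gram_sum C.B (fun z => ix (s x z) (s y z))
    · simp [h]
  have p4 : (∑ x : V, ∑ y : V, ∑ z : V, ∑ w : V,
      dl (s x w) * C.Y.getD (iy (s x y) (s x z) (s y z)) 0) = 0 := by
    refine Finset.sum_eq_zero fun x _ => Finset.sum_eq_zero fun y _ =>
      Finset.sum_eq_zero fun z _ => ?_
    rw [← Finset.sum_mul, heul x, zero_mul]
  rw [p1, p4] at hT
  have h7 : 0 ≤ C.K * n ^ 2 * (C.cn * n ^ 2 - C.cd * m) := by linarith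
  rcases isEmpty_or_nonempty V with hV | hV
  · have hn0 : n = 0 := by rw [hn]; simp
    have hm0 : m = 0 := by rw [hm]; simp
    rw [hn0, hm0]; simp
  · have hnpos : 0 < n := by rw [hn]; exact_mod_cast Fintype.card_pos
    have h8 : 0 < C.K * n ^ 2 := by positivity
    have h9 := nonneg_of_mul_nonneg_right h7 h8
    linarith

end Sum

end Pool.EulFlag
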